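import Pool.Agent.Q122.RV.Asm
import Pool.Agent.Q122.RV.TaskGrp
import Pool.Agent.Q122.RV.TaskDeriv
import Pool.Agent.Q122.RV.TaskMk
import Pool.Agent.Q122.RV.TaskPatch
import Pool.Agent.Q122.RV.TaskDens
import Pool.Agent.Q122.RV.TaskGlue
import Pool.Agent.Q122.RV.TaskInterp
import Pool.Agent.Q122.RV.TaskModel
import Pool.Agent.Q122.RV.TaskSign
import Pool.Agent.Q122.RV.TaskRevB
import Pool.Agent.Q122.RV.TaskPropP
import Pool.Agent.Q122.RV.TaskPropN
import Pool.Agent.Q122.RV.TaskPP
import Pool.Agent.Q122.RV.TaskNN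
import Pool.Agent.Q122.RV.TaskNP
import Pool.Agent.Q122.RV.TaskPN
import Pool.Agent.Q122.RV.TaskNext
import Pool.Agent.Q122.RV.TaskStep
import Pool.Agent.Q122.RV.TaskDouble
import Pool.Agent.Q122.RV.TaskSeq
import Pool.Agent.Q122.RV.TaskLimit
import Pool.Agent.Q122.RV.TaskHalf
import Pool.Agent.Q122.RV.TaskLeft
import Pool.Agent.Q122.RV.TaskStart
import Pool.Agent.Q122.RV.TaskTwo
import Pool.Agent.Q122.RV.TaskGrow
import Pool.Agent.Q122.RV.TaskOsc

/-!
# Reversible length of the diffeomorphisms of the line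

`MP_608a10_al`, Q2: every orientation preserving `C^∞` diffeomorphism of the real line is a product
of three reversible elements of `Diffeo⁺(ℝ)`.  If `f - id` takes both signs near `+∞` and near
`-∞`, two reversible elements suffice (a part of Q1).

`ℝ ≃o ℝ` is the group of the increasing bijections of the line with `(f * g) x = f (g x)`.
`Sm f`: `f` and `f⁻¹` are `C^∞`.  `Rev g`: `h g h⁻¹ = g⁻¹` for some `h` with `Sm h`.
-/

set_option autoImplicit false

namespace Pool.Agent.Results.MP_608a10_al.ThreeReversibles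

open Pool.Agent.RV122

/-- Every orientation preserving smooth diffeomorphism `f` of the line is a product of three
reversible ones, and of two if `f x - x` takes positive and negative values in every neighbourhood
of `+∞` and of `-∞`. -/
theorem result :
    (∀ f : ℝ ≃o ℝ, Sm f → ∃ g₁ g₂ g₃ : ℝ ≃o ℝ, Sm g₁ ∧ Sm g₂ ∧ Sm g₃ ∧ Rev g₁ ∧ Rev g₂ ∧ Rev g₃ ∧
      f = g₁ * g₂ * g₃) ∧
    ∀ f : ℝ ≃o ℝ, Sm f → OscP f → OscM f → ∃ g₁ g₂ : ℝ ≃o ℝ, Sm g₁ ∧ Sm g₂ ∧ Rev g₁ ∧ Rev g₂ ∧
      f = g₁ * g₂ :=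
  asm TaskGrp.main TaskDeriv.main TaskMk.main TaskPatch.main TaskDens.main TaskGlue.main TaskInterp.main TaskModel.main TaskSign.main TaskRevB.main TaskPropP.main TaskPropN.main TaskPP.main TaskNN.main TaskNP.main TaskPN.main TaskNext.main TaskStep.main TaskDouble.main TaskSeq.main TaskLimit.main TaskHalf.main TaskLeft.main TaskStart.main TaskTwo.main TaskGrow.main TaskOsc.main

end Pool.Agent.Results.MP_608a10_al.ThreeReversibles
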